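import Mathlib

namespace Pool.Agent.MP_38e169_lc

open Real Filter

/-- the key size bound as a function of the parameter `m` -/
def keyBound (q E m : ℕ) : ℕ := (q + 2 * q * E) * (q * m ^ 3) ^ (q * m)

theorem exists_param (N : ℕ) : ∃ m : ℕ, 2 ≤ m ∧ N ≤ m ^ (m ^ 2 - 1) := by
  refine ⟨N + 2, by omega, ?_⟩
  calc N ≤ N + 2 := by omega
    _ = (N + 2) ^ 1 := by ring
    _ ≤ (N + 2) ^ ((N + 2) ^ 2 - 1) := by
      apply Nat.pow_le_pow_right (by omega)
      have : 2 ^ 2 ≤ (N + 2) ^ 2 := Nat.pow_le_pow_left (by omega) 2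
      omega

theorem log_keyBound_le (q E m : ℕ) (hq : 1 < q) (hm : 2 ≤ m) :
    Real.log (keyBound q E m) ≤
      (Real.log (q + 2 * q * E) / (2 * Real.log 2) +
        q * (Real.log q / Real.log 2 + 3)) * (m * Real.log m) := by
  have hm' : (2 : ℝ) ≤ m := by exact_mod_cast hm
  have hq' : (1 : ℝ) < q := by exact_mod_cast hq
  have hE' : (0 : ℝ) ≤ E := Nat.cast_nonneg _
  have hlog2 : 0 < Real.log 2 := Real.log_pos (by norm_num)
  have hlogm : Real.log 2 ≤ Real.log m := Real.log_le_log (by norm_num) hm'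
  have hlogq : 0 < Real.log q := Real.log_pos hq'
  have hc0 : (1 : ℝ) ≤ q + 2 * q * E := by nlinarith
  have hlogc : 0 ≤ Real.log (q + 2 * q * E) := Real.log_nonneg hc0
  have h1 : Real.log (keyBound q E m) =
      Real.log (q + 2 * q * E) + q * m * (Real.log q + 3 * Real.log m) := by
    unfold keyBound
    push_cast
    rw [Real.log_mul (by positivity) (by positivity), Real.log_pow,
      Real.log_mul (by positivity) (by positivity), Real.log_pow]
    push_cast
    ring
  rw [h1, add_mul]
  have h2 : 2 * Real.log 2 ≤ m * Real.log m := by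
    apply mul_le_mul hm' hlogm hlog2.le (by linarith)
  have h3 : Real.log (q + 2 * q * E) ≤
      Real.log (q + 2 * q * E) / (2 * Real.log 2) * (m * Real.log m) := by
    calc Real.log (q + 2 * q * E) =
        Real.log (q + 2 * q * E) / (2 * Real.log 2) * (2 * Real.log 2) := by
          field_simp
      _ ≤ _ := by
        apply mul_le_mul_of_nonneg_left h2
        positivity
  have h4 : Real.log q ≤ Real.log q / Real.log 2 * Real.log m := by
    calc Real.log q = Real.log q / Real.log 2 * Real.log 2 := by field_simp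
      _ ≤ _ := by
        apply mul_le_mul_of_nonneg_left hlogm
        positivity
  have h5 : q * m * (Real.log q + 3 * Real.log m) ≤
      q * (Real.log q / Real.log 2 + 3) * (m * Real.log m) := by
    calc q * m * (Real.log q + 3 * Real.log m)
        ≤ q * m * (Real.log q / Real.log 2 * Real.log m + 3 * Real.log m) := by
          apply mul_le_mul_of_nonneg_left _ (by positivity)
          linarith
      _ = _ := by ring
  linarith

theorem mlogm_le (m N : ℕ) (hm : 4 ≤ m) (hN : (m - 1) ^ ((m - 1) ^ 2 - 1) < N) :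
    (m * Real.log m) ≤ 2 * √(Real.log N * Real.log (Real.log N)) := by
  obtain ⟨k, rfl⟩ : ∃ k, m = k + 1 := ⟨m - 1, by omega⟩
  have hk : 3 ≤ k := by omega
  simp only [Nat.add_sub_cancel] at hN
  have hk' : (3 : ℝ) ≤ k := by exact_mod_cast hk
  set M : ℝ := ((k + 1 : ℕ) : ℝ) with hM
  have hMk : M = k + 1 := by rw [hM]; push_cast; ring
  have hM4 : 4 ≤ M := by rw [hMk]; linarith
  have hlogN1 : ((k ^ 2 - 1 : ℕ) : ℝ) * Real.log k ≤ Real.log N := by
    rw [← Real.log_pow]
    apply Real.log_le_log (by positivity)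
    exact_mod_cast hN.le
  have hcast : ((k ^ 2 - 1 : ℕ) : ℝ) = (k : ℝ) ^ 2 - 1 := by
    have : 1 ≤ k ^ 2 := Nat.one_le_pow _ _ (by omega)
    push_cast [this]; ring
  rw [hcast] at hlogN1
  have hlogM : 0 < Real.log M := Real.log_pos (by linarith)
  have hhalf : Real.log M / 2 ≤ Real.log k := by
    have h1 : Real.log M ≤ Real.log ((k : ℝ) ^ 2) := by
      apply Real.log_le_log (by linarith)
      rw [hMk]; nlinarith
    rw [Real.log_pow] at h1
    push_cast at h1
    linarith
  have hsq : M ^ 2 / 2 ≤ (k : ℝ) ^ 2 - 1 := by rw [hMk]; nlinarith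
  have hlogN : M ^ 2 * Real.log M / 4 ≤ Real.log N := by
    calc M ^ 2 * Real.log M / 4 = (M ^ 2 / 2) * (Real.log M / 2) := by ring
      _ ≤ ((k : ℝ) ^ 2 - 1) * Real.log k := by
        apply mul_le_mul hsq hhalf (by positivity) (by nlinarith)
      _ ≤ _ := hlogN1
  have hlog4 : 1 ≤ Real.log M := by
    have h1 : Real.log (Real.exp 1) ≤ Real.log M := by
      apply Real.log_le_log (Real.exp_pos 1)
      have := Real.exp_one_lt_d9
      linarith
    simpa using h1
  have hlogNM : M ≤ Real.log N := by
    have h0 : M * 4 ≤ M * (M * Real.log M) := by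
      apply mul_le_mul_of_nonneg_left _ (by linarith)
      nlinarith
    calc M ≤ M ^ 2 * Real.log M / 4 := by
          rw [le_div_iff₀ (by norm_num)]
          calc M * 4 ≤ M * (M * Real.log M) := h0
            _ = M ^ 2 * Real.log M := by ring
      _ ≤ _ := hlogN
  have hloglog : Real.log M ≤ Real.log (Real.log N) := Real.log_le_log (by linarith) hlogNM
  have hprod : (M * Real.log M / 2) ^ 2 ≤ Real.log N * Real.log (Real.log N) := by
    calc (M * Real.log M / 2) ^ 2 = (M ^ 2 * Real.log M / 4) * Real.log M := by ring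
      _ ≤ Real.log N * Real.log (Real.log N) := by
        apply mul_le_mul hlogN hloglog hlogM.le
        have : 0 ≤ M ^ 2 * Real.log M / 4 := by positivity
        linarith
  have := Real.le_sqrt_of_sq_le hprod
  linarith

theorem key_size_bound (q E : ℕ) (hq : 1 < q) :
    ∃ C : ℝ, ∀ N : ℕ, 3 ≤ N → ∀ m : ℕ, 2 ≤ m →
      (3 < m → (m - 1) ^ ((m - 1) ^ 2 - 1) < N) →
      (keyBound q E m : ℝ) ≤ Real.exp (C * √(Real.log N * Real.log (Real.log N))) := by
  set C1 := (Real.log (q + 2 * q * E) / (2 * Real.log 2) +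
        q * (Real.log q / Real.log 2 + 3)) with hC1
  have hq' : (1 : ℝ) < q := by exact_mod_cast hq
  have hE' : (0 : ℝ) ≤ E := Nat.cast_nonneg _
  have hlog2 : 0 < Real.log 2 := Real.log_pos (by norm_num)
  have hlogq : 0 < Real.log q := Real.log_pos hq'
  have hc0 : (1 : ℝ) ≤ q + 2 * q * E := by nlinarith
  have hlogc : 0 ≤ Real.log (q + 2 * q * E) := Real.log_nonneg hc0
  have hC1pos : 0 ≤ C1 := by rw [hC1]; positivity
  have hlog3 : 1 < Real.log 3 := by
    have h1 : Real.log (Real.exp 1) < Real.log 3 := by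
      apply Real.log_lt_log (Real.exp_pos 1)
      have := Real.exp_one_lt_d9
      linarith
    simpa using h1
  have hloglog3 : 0 < Real.log (Real.log 3) := Real.log_pos hlog3
  set κ := √(Real.log 3 * Real.log (Real.log 3)) with hκ
  have hκpos : 0 < κ := Real.sqrt_pos.2 (by positivity)
  refine ⟨2 * C1 + C1 * (3 * Real.log 3) / κ, ?_⟩
  intro N hN m hm hmN
  have hN' : (3 : ℝ) ≤ N := by exact_mod_cast hN
  have hkpos : 0 < (keyBound q E m : ℝ) := by
    unfold keyBound
    have : 0 < m := by omega
    have : 0 < q := by omega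
    positivity
  have hS : κ ≤ √(Real.log N * Real.log (Real.log N)) := by
    apply Real.sqrt_le_sqrt
    have h1 : Real.log 3 ≤ Real.log N := Real.log_le_log (by norm_num) hN'
    have h2 : Real.log (Real.log 3) ≤ Real.log (Real.log N) :=
      Real.log_le_log (by linarith) h1
    exact mul_le_mul h1 h2 hloglog3.le (by linarith)
  rw [← Real.log_le_iff_le_exp hkpos]
  refine (log_keyBound_le q E m hq hm).trans ?_
  rw [← hC1]
  rcases Nat.lt_or_ge 3 m with h | h
  · have h1 := mlogm_le m N (by omega) (hmN h)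
    calc C1 * (m * Real.log m) ≤ C1 * (2 * √(Real.log N * Real.log (Real.log N))) :=
          mul_le_mul_of_nonneg_left h1 hC1pos
      _ = 2 * C1 * √(Real.log N * Real.log (Real.log N)) := by ring
      _ ≤ (2 * C1 + C1 * (3 * Real.log 3) / κ) * √(Real.log N * Real.log (Real.log N)) := by
        apply mul_le_mul_of_nonneg_right _ (Real.sqrt_nonneg _)
        have : 0 ≤ C1 * (3 * Real.log 3) / κ := by positivity
        linarith
  · have hm3 : (m : ℝ) ≤ 3 := by exact_mod_cast h
    have hm0 : (0 : ℝ) < m := by exact_mod_cast (by omega : 0 < m)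
    have h1 : m * Real.log m ≤ 3 * Real.log 3 := by
      apply mul_le_mul hm3 (Real.log_le_log hm0 hm3) (Real.log_nonneg _) (by norm_num)
      exact_mod_cast (by omega : 1 ≤ m)
    calc C1 * (m * Real.log m) ≤ C1 * (3 * Real.log 3) :=
          mul_le_mul_of_nonneg_left h1 hC1pos
      _ = C1 * (3 * Real.log 3) / κ * κ := by field_simp
      _ ≤ C1 * (3 * Real.log 3) / κ * √(Real.log N * Real.log (Real.log N)) := by
        apply mul_le_mul_of_nonneg_left hS
        positivity
      _ ≤ (2 * C1 + C1 * (3 * Real.log 3) / κ) * √(Real.log N * Real.log (Real.log N)) := by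
        apply mul_le_mul_of_nonneg_right _ (Real.sqrt_nonneg _)
        linarith

theorem exp_bound_isSubpolynomial (C ε : ℝ) (hε : 0 < ε) :
    ∀ᶠ N : ℕ in atTop,
      Real.exp (C * √(Real.log N * Real.log (Real.log N))) ≤ (N : ℝ) ^ ε := by
  set δ := (ε / (|C| + 1)) ^ 2 with hδ
  have hC : 0 < |C| + 1 := by positivity
  have hδpos : 0 < δ := by positivity
  have h1 : ∀ᶠ y : ℝ in atTop, Real.log y ≤ δ * y := by
    have := Real.isLittleO_log_id_atTop.bound hδpos
    filter_upwards [this, eventually_ge_atTop 1] with y hy hy1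
    rw [Real.norm_eq_abs, Real.norm_eq_abs] at hy
    have h2 : |id y| = y := abs_of_nonneg (by simp; linarith)
    rw [h2] at hy
    exact (le_abs_self _).trans hy
  have h2 : Tendsto (fun N : ℕ => Real.log (N : ℝ)) atTop atTop :=
    Real.tendsto_log_atTop.comp tendsto_natCast_atTop_atTop
  filter_upwards [h2.eventually h1, eventually_ge_atTop 3] with N hN hN3
  have hN' : (3 : ℝ) ≤ N := by exact_mod_cast hN3
  have hlogpos : 0 ≤ Real.log N := Real.log_nonneg (by linarith)
  rw [Real.rpow_def_of_pos (by linarith)]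
  apply Real.exp_le_exp.2
  have h3 : √(Real.log N * Real.log (Real.log N)) ≤ ε / (|C| + 1) * Real.log N := by
    apply Real.sqrt_le_iff.2
    constructor
    · positivity
    · calc Real.log N * Real.log (Real.log N) ≤ Real.log N * (δ * Real.log N) :=
            mul_le_mul_of_nonneg_left hN hlogpos
        _ = (ε / (|C| + 1) * Real.log N) ^ 2 := by rw [hδ]; ring
  calc C * √(Real.log N * Real.log (Real.log N))
      ≤ (|C| + 1) * √(Real.log N * Real.log (Real.log N)) := by
        apply mul_le_mul_of_nonneg_right _ (Real.sqrt_nonneg _)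
        have := le_abs_self C
        linarith
    _ ≤ (|C| + 1) * (ε / (|C| + 1) * Real.log N) := mul_le_mul_of_nonneg_left h3 hC.le
    _ = Real.log N * ε := by field_simp

end Pool.Agent.MP_38e169_lc
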