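import Mathlib

namespace Pool.Agent.MP_38e169_lc

/-- An `m`-party distributed point function with domain `Fin N` and output group `G`.
Keys are bit strings, so that the bit length of a key is the length of the list. -/
structure DPF (m N : ℕ) (G : Type*) [AddCommGroup G] where
  /-- randomized key generation, outputting one key for each party -/
  gen : Fin N → G → PMF (Fin m → List Bool)
  /-- local evaluation: party, key, input -/
  eval : Fin m → List Bool → Fin N → G
  /-- correctness, for every possible output of the key generation -/
  correct : ∀ (α : Fin N) (β : G), ∀ k ∈ (gen α β).support, ∀ x : Fin N,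
    ∑ i : Fin m, eval i (k i) x = if x = α then β else 0

variable {m N : ℕ} {G : Type*} [AddCommGroup G]

/-- Perfect security with threshold one: the distribution of each single key does not
depend on the point function. -/
def DPF.PerfectlySecure (D : DPF m N G) : Prop :=
  ∀ (i : Fin m) (α α' : Fin N) (β β' : G),
    (D.gen α β).map (fun k => k i) = (D.gen α' β').map (fun k => k i)

/-- Every key that can be produced has at most `ℓ` bits. -/
def DPF.KeySizeLE (D : DPF m N G) (ℓ : ℕ) : Prop :=
  ∀ (α : Fin N) (β : G), ∀ k ∈ (D.gen α β).support, ∀ i : Fin m, (k i).length ≤ ℓ

end Pool.Agent.MP_38e169_lc
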