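import Mathlib

namespace Pool.Agent.MP_38e169_lc

open Finset Matrix

/-- Binomial coefficients with lower index `q^f - 1` modulo the prime `q`. -/
theorem choose_pow_sub_one (q : ℕ) [Fact q.Prime] (f : ℕ) :
    ∀ A : ℕ, ((A.choose (q ^ f - 1) : ℕ) : ZMod q) = if q ^ f ∣ A + 1 then 1 else 0 := by
  have hq : 1 < q := (Fact.out : q.Prime).one_lt
  induction f with
  | zero => intro A; simp
  | succ f ih =>
    intro A
    have h1 : ((A.choose (q ^ (f + 1) - 1) : ℕ) : ZMod q) =
        (((A % q).choose ((q ^ (f + 1) - 1) % q) *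
          (A / q).choose ((q ^ (f + 1) - 1) / q) : ℕ) : ZMod q) := by
      have := @Choose.choose_modEq_choose_mod_mul_choose_div_nat A (q ^ (f + 1) - 1) q _
      exact (ZMod.natCast_eq_natCast_iff _ _ _).2 this
    have hpos : 0 < q ^ f := Nat.pow_pos (by omega)
    have h2 : q ^ (f + 1) - 1 = (q - 1) + q * (q ^ f - 1) := by
      rw [pow_succ, Nat.mul_comm (q ^ f) q, Nat.mul_sub, Nat.mul_one]
      have : q ≤ q * q ^ f := Nat.le_mul_of_pos_right q hpos
      omega
    have h3 : (q ^ (f + 1) - 1) % q = q - 1 := by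
      rw [h2, Nat.add_mul_mod_self_left, Nat.mod_eq_of_lt (by omega)]
    have h4 : (q ^ (f + 1) - 1) / q = q ^ f - 1 := by
      rw [h2, Nat.add_mul_div_left _ _ (by omega), Nat.div_eq_of_lt (by omega), Nat.zero_add]
    rw [h1, h3, h4, Nat.cast_mul, ih (A / q)]
    have hmod : A % q < q := Nat.mod_lt _ (by omega)
    by_cases hA : A % q = q - 1
    · rw [hA, Nat.choose_self, Nat.cast_one, one_mul]
      have h5 : A + 1 = q * (A / q + 1) := by
        have := Nat.mod_add_div A q
        rw [Nat.mul_add, Nat.mul_one]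
        omega
      have h6 : q ^ (f + 1) ∣ A + 1 ↔ q ^ f ∣ A / q + 1 := by
        rw [h5, pow_succ, Nat.mul_comm (q ^ f) q]
        exact Nat.mul_dvd_mul_iff_left (by omega)
      simp only [h6]
    · rw [Nat.choose_eq_zero_of_lt (by omega), Nat.cast_zero, zero_mul]
      have h7 : ¬ q ^ (f + 1) ∣ A + 1 := by
        intro h
        have h8 : q ∣ A + 1 := (dvd_pow_self q (by omega)).trans h
        have h9 := Nat.mod_eq_zero_of_dvd h8
        rw [Nat.add_mod] at h9
        have : 1 % q = 1 := Nat.mod_eq_of_lt hq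
        rw [this] at h9
        have h10 : A % q + 1 < q := by omega
        rw [Nat.mod_eq_of_lt h10] at h9
        omega
      simp [h7]

theorem det_choose_progression (Q : ℕ) (hQ : 1 ≤ Q) (J : ℕ) :
    ∃ K : ℕ, (Matrix.of fun i j : Fin (J + 1) =>
      (Nat.choose ((i + 1) * Q - 1) j : ℤ)).det = (Q : ℤ) ^ K := by
  set w : Fin (J + 1) → ℕ := fun i => (i + 1) * Q - 1 with hw
  have h := det_eval_matrixOfPolynomials_eq_det_vandermonde (fun i => (w i : ℤ))
      (fun i => descPochhammer ℤ i)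
      (fun i => descPochhammer_natDegree ℤ i)
      (fun i => monic_descPochhammer ℤ i)
  have h2 : (of fun i j : Fin (J + 1) => (descPochhammer ℤ j).eval (w i : ℤ)).det =
      (∏ i : Fin (J + 1), Nat.factorial i : ℕ) *
      (of fun i j : Fin (J + 1) => (Nat.choose (w i) j : ℤ)).det := by
    have := det_mul_row (fun (i : Fin (J + 1)) => ((Nat.factorial (i : ℕ)) : ℤ))
      (of fun i j : Fin (J + 1) => (Nat.choose (w i) j : ℤ))
    rw [Nat.cast_prod, ← this]
    congr 1
    ext i j
    rw [of_apply, descPochhammer_eval_eq_descFactorial ℤ _ _,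
      Nat.descFactorial_eq_factorial_mul_choose]
    simp
  have h3 : (vandermonde fun i => (w i : ℤ)).det =
      (Q : ℤ) ^ (∑ i : Fin (J + 1), (Ioi i).card) * (J.superFactorial : ℤ) := by
    rw [← det_vandermonde_id_eq_superFactorial, det_vandermonde, det_vandermonde]
    rw [← Finset.prod_pow_eq_pow_sum, ← Finset.prod_mul_distrib]
    refine Finset.prod_congr rfl fun i _ => ?_
    rw [← Finset.prod_const, ← Finset.prod_mul_distrib]
    refine Finset.prod_congr rfl fun j _ => ?_
    have e : ∀ i : Fin (J + 1), (w i : ℤ) = (i + 1) * Q - 1 := by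
      intro i
      have : 1 ≤ ((i : ℕ) + 1) * Q := Nat.one_le_iff_ne_zero.2 (by positivity)
      simp only [hw]
      push_cast [this]
      ring
    rw [e, e]; ring
  have h4 : (∏ i : Fin (J + 1), Nat.factorial i : ℕ) = J.superFactorial := by
    rw [Fin.prod_univ_eq_prod_range (fun i => Nat.factorial i) (J + 1),
      Nat.prod_range_succ_factorial]
  refine ⟨∑ i : Fin (J + 1), (Ioi i).card, ?_⟩
  rw [h3, h2, h4] at h
  have h5 : (J.superFactorial : ℤ) ≠ 0 := by
    rw [← h4]
    exact_mod_cast Finset.prod_ne_zero_iff.2 fun i _ => Nat.factorial_ne_zero _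
  have h6 : (J.superFactorial : ℤ) * (of fun i j : Fin (J + 1) =>
      (Nat.choose (w i) j : ℤ)).det = J.superFactorial *
      (Q : ℤ) ^ (∑ i : Fin (J + 1), (Ioi i).card) := by
    rw [← h]; ring
  exact mul_left_cancel₀ h5 h6

/-- Interpolation along the progression `Q - 1, 2Q - 1, ..., (J+1)Q - 1` by integral
combinations of binomial coefficients of degree at most `J`, modulo `E` prime to `Q`. -/
theorem exists_interpolation (Q E : ℕ) (hQ : 1 ≤ Q) (hE : Nat.Coprime Q E) (J : ℕ) :
    ∃ m : ℕ → ℤ, ∀ i, 1 ≤ i → i ≤ J + 1 →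
      (E : ℤ) ∣ (∑ l ∈ range (J + 1), m l * ((i * Q - 1).choose l : ℤ)) -
        (if i = J + 1 then 1 else 0) := by
  obtain ⟨K, hK⟩ := det_choose_progression Q hQ J
  set A : Matrix (Fin (J + 1)) (Fin (J + 1)) ℤ :=
    Matrix.of fun i j : Fin (J + 1) => (Nat.choose ((i + 1) * Q - 1) j : ℤ) with hA
  have hcop : IsCoprime ((Q : ℤ) ^ K) (E : ℤ) :=
    IsCoprime.pow_left (Nat.isCoprime_iff_coprime.2 hE)
  obtain ⟨a, b, hab⟩ := hcop
  refine ⟨fun l => if h : l < J + 1 then a * A.adjugate ⟨l, h⟩ (Fin.last J) else 0, ?_⟩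
  intro i hi1 hi2
  have key : ∀ i : Fin (J + 1), ∑ l : Fin (J + 1), A i l * A.adjugate l (Fin.last J) =
      (Q : ℤ) ^ K * (if i = Fin.last J then 1 else 0) := by
    intro i
    have := congrFun (congrFun (Matrix.mul_adjugate A) i) (Fin.last J)
    rw [Matrix.mul_apply] at this
    rw [this, hK, Matrix.smul_apply, Matrix.one_apply, smul_eq_mul]
  have hsum : (∑ l ∈ range (J + 1), (fun l => if h : l < J + 1 then
      a * A.adjugate ⟨l, h⟩ (Fin.last J) else 0) l * ((i * Q - 1).choose l : ℤ)) =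
      a * ∑ l : Fin (J + 1), A ⟨i - 1, by omega⟩ l * A.adjugate l (Fin.last J) := by
    rw [← Fin.sum_univ_eq_sum_range (fun l => (fun l => if h : l < J + 1 then
      a * A.adjugate ⟨l, h⟩ (Fin.last J) else 0) l * ((i * Q - 1).choose l : ℤ)) (J + 1),
      Finset.mul_sum]
    refine Finset.sum_congr rfl fun l _ => ?_
    have hl : (l : ℕ) < J + 1 := l.2
    have hi : i - 1 + 1 = i := by omega
    simp only [hl, dif_pos, hA, of_apply, hi, Fin.eta]
    ring
  rw [hsum, key]
  have hcond : ((⟨i - 1, by omega⟩ : Fin (J + 1)) = Fin.last J) ↔ i = J + 1 := by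
    rw [Fin.ext_iff]; simp; omega
  simp only [hcond]
  by_cases h : i = J + 1
  · simp only [h, if_true]
    refine ⟨-b, ?_⟩
    linarith
  · simp [h]

end Pool.Agent.MP_38e169_lc
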