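import Mathlib
import Pool.Agent.MP_38e169_lc.Defs

namespace Pool.Agent.MP_38e169_lc

open Finset

variable {m N : ℕ} {G : Type*} [AddCommGroup G]

theorem map_uniform_bijective {K L : Type*} [Fintype K] [Nonempty K] [Fintype L] [Nonempty L]
    (f : K → L) (hf : Function.Bijective f) :
    (PMF.uniformOfFintype K).map f = PMF.uniformOfFintype L := by
  classical
  ext b
  obtain ⟨a, rfl⟩ := hf.2 b
  rw [PMF.map_apply, tsum_eq_single a]
  · simp [Fintype.card_of_bijective hf]
  · intro a' ha'
    rw [if_neg]
    intro h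
    exact ha' (hf.1 h.symm)

section Construction

variable (q : ℕ) [NeZero q] {I I' : Type} [Fintype I] [Fintype I']
  (u v : Fin N → I → ZMod q) (u' v' : Fin N → I' → ℤ)

/-- The structured keys. -/
abbrev Key (q : ℕ) (I I' : Type) (G : Type*) :=
  (I → ZMod q) × (I' → ZMod q → G) × (I' → ZMod q → G)

/-- inner product -/
def ip {R : Type*} [CommRing R] {I : Type} [Fintype I] (a b : I → R) : R := ∑ j, a j * b j

/-- the vector which is additively shared -/
def tot (α : Fin N) (β : G) (w : I → ZMod q) : I' → ZMod q → G :=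
  fun j t => if t = -ip (u α) w then v' α j • β else 0

/-- The key of party `i` as a function of the randomness. -/
def keyOf (α : Fin N) (β : G) (r : Key q I I' G) : Fin 3 → Key q I I' G
  | 0 => (r.1, r.2.2, tot q u v' α β r.1 - r.2.1 - r.2.2)
  | 1 => (r.1 + v α, tot q u v' α β r.1 - r.2.1 - r.2.2, r.2.1)
  | 2 => (r.1 + v α + v α, r.2.1, r.2.2)

/-- indicator -/
def dl (q : ℕ) (a y : ZMod q) : ℤ := if y = a then 1 else 0

/-- weights used for the first share held -/
def ka (q : ℕ) : Fin 3 → ZMod q → ℤ
  | 0 => fun y => -dl q 2 y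
  | 1 => fun y => dl q 1 y + dl q 2 y
  | 2 => fun y => dl q 2 y + dl q 3 y

/-- weights used for the second share held -/
def kb (q : ℕ) : Fin 3 → ZMod q → ℤ
  | 0 => fun y => -(dl q 1 y + dl q 2 y)
  | 1 => fun y => -(dl q 2 y + dl q 3 y)
  | 2 => fun y => dl q 2 y

/-- combine a share with the public vector -/
def comb (x : Fin N) (d : I' → ZMod q → G) (t : ZMod q) : G := ∑ j, u' x j • d j t

/-- evaluation of structured keys -/
def evalK (i : Fin 3) (k : Key q I I' G) (x : Fin N) : G :=
  ∑ t : ZMod q, (ka q i (t + ip (u x) k.1) • comb q u' x k.2.1 t +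
    kb q i (t + ip (u x) k.1) • comb q u' x k.2.2 t)

theorem comb_sub (x : Fin N) (d d' : I' → ZMod q → G) (t : ZMod q) :
    comb q u' x (d - d') t = comb q u' x d t - comb q u' x d' t := by
  simp [comb, smul_sub, Finset.sum_sub_distrib]

theorem comb_tot (x α : Fin N) (β : G) (w : I → ZMod q) (t : ZMod q) :
    comb q u' x (tot q u v' α β w) t =
      if t = -ip (u α) w then (ip (u' x) (v' α)) • β else 0 := by
  unfold comb tot ip
  split_ifs with h
  · rw [Finset.sum_smul]
    refine Finset.sum_congr rfl fun j _ => ?_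
    rw [mul_smul]
  · simp

theorem ip_add {R : Type*} [CommRing R] {I : Type} [Fintype I] (a b c : I → R) :
    ip a (b + c) = ip a b + ip a c := by
  simp [ip, mul_add, Finset.sum_add_distrib]

theorem sum_evalK (hq : 2 < q)
    (hB : ∀ x α, ip (u x) (v α) = 0 ∨ ip (u x) (v α) = 1)
    (hBd : ∀ α, ip (u α) (v α) = 1)
    (hM : ∀ x α, x ≠ α → ip (u x) (v α) = 1 → ∀ g : G, ip (u' x) (v' α) • g = 0)
    (hMd : ∀ α (g : G), ip (u' α) (v' α) • g = g)
    (α : Fin N) (β : G) (r : Key q I I' G) (x : Fin N) :
    ∑ i : Fin 3, evalK q u u' i (keyOf q u v v' α β r i) x = if x = α then β else 0 := by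
  obtain ⟨w, r0, r1⟩ := r
  have key : ∑ i : Fin 3, evalK q u u' i (keyOf q u v v' α β (w, r0, r1) i) x =
      ∑ t : ZMod q, (if ip (u x) (v α) = 1 then
        (dl q 0 (t + ip (u x) w) - dl q 2 (t + ip (u x) w)) •
          comb q u' x (tot q u v' α β w) t else 0) := by
    rw [Fin.sum_univ_three]
    unfold evalK keyOf
    rw [← Finset.sum_add_distrib, ← Finset.sum_add_distrib]
    refine Finset.sum_congr rfl fun t _ => ?_
    simp only [comb_sub, ip_add, ka, kb]
    generalize comb q u' x r0 t = a0
    generalize comb q u' x r1 t = a1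
    generalize comb q u' x (tot q u v' α β w) t = T
    rcases hB x α with h | h
    · have h01 : (0 : ZMod q) ≠ 1 := by
        have : Fact (1 < q) := ⟨by omega⟩
        exact zero_ne_one
      rw [h, if_neg h01]
      simp only [add_zero]
      module
    · rw [h, if_pos rfl]
      generalize hy : t + ip (u x) w = y
      have e1 : t + (ip (u x) w + 1) = y + 1 := by rw [← hy]; ring
      have e2 : t + (ip (u x) w + 1 + 1) = y + 1 + 1 := by rw [← hy]; ring
      rw [e1, e2]
      have d1 : dl q 1 (y + 1) = dl q 0 y := by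
        unfold dl; congr 1; simp
      have d2 : dl q 2 (y + 1) = dl q 1 y := by
        unfold dl; congr 1
        rw [eq_iff_iff]
        constructor
        · intro h; linear_combination h
        · intro h; linear_combination h
      have d3 : dl q 3 (y + 1) = dl q 2 y := by
        unfold dl; congr 1
        rw [eq_iff_iff]
        constructor
        · intro h; linear_combination h
        · intro h; linear_combination h
      have d4 : dl q 2 (y + 1 + 1) = dl q 0 y := by
        unfold dl; congr 1
        rw [eq_iff_iff]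
        constructor
        · intro h; linear_combination h
        · intro h; linear_combination h
      have d5 : dl q 3 (y + 1 + 1) = dl q 1 y := by
        unfold dl; congr 1
        rw [eq_iff_iff]
        constructor
        · intro h; linear_combination h
        · intro h; linear_combination h
      rw [d1, d2, d3, d4, d5]
      module
  rw [key]
  by_cases hx : x = α
  · subst hx
    simp only [hBd x, if_true, comb_tot, hMd]
    rw [Finset.sum_eq_single (-ip (u x) w)]
    · have h02 : (0 : ZMod q) ≠ 2 := by
        intro h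
        have h2 : ((2 : ℕ) : ZMod q) = 0 := by exact_mod_cast h.symm
        rw [ZMod.natCast_eq_zero_iff] at h2
        exact absurd (Nat.le_of_dvd (by norm_num) h2) (by omega)
      simp [dl, h02]
    · intro b _ hb
      simp [hb]
    · intro h; exact absurd (Finset.mem_univ _) h
  · rw [if_neg hx]
    refine Finset.sum_eq_zero fun t _ => ?_
    split_ifs with h1
    · rw [comb_tot]
      split_ifs with h2
      · rw [hM x α hx h1, smul_zero]
      · rw [smul_zero]
    · rfl

theorem keyOf_bijective (α : Fin N) (β : G) (i : Fin 3) :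
    Function.Bijective (fun r : Key q I I' G => keyOf q u v v' α β r i) := by
  fin_cases i
  · refine Function.bijective_iff_has_inverse.2
      ⟨fun k => (k.1, tot q u v' α β k.1 - k.2.2 - k.2.1, k.2.1), ?_, ?_⟩
    · rintro ⟨w, r0, r1⟩
      simp [keyOf]
      abel
    · rintro ⟨w, r0, r1⟩
      simp [keyOf]
      abel
  · refine Function.bijective_iff_has_inverse.2
      ⟨fun k => (k.1 - v α, k.2.2, tot q u v' α β (k.1 - v α) - k.2.2 - k.2.1), ?_, ?_⟩
    · rintro ⟨w, r0, r1⟩
      simp [keyOf]
    · rintro ⟨w, r0, r1⟩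
      simp [keyOf]
  · refine Function.bijective_iff_has_inverse.2
      ⟨fun k => (k.1 - v α - v α, k.2.1, k.2.2), ?_, ?_⟩
    · rintro ⟨w, r0, r1⟩
      simp [keyOf]
    · rintro ⟨w, r0, r1⟩
      simp [keyOf]

theorem exists_scheme [Finite G] (hq : 2 < q)
    (hB : ∀ x α, ip (u x) (v α) = 0 ∨ ip (u x) (v α) = 1)
    (hBd : ∀ α, ip (u α) (v α) = 1)
    (hM : ∀ x α, x ≠ α → ip (u x) (v α) = 1 → ∀ g : G, ip (u' x) (v' α) • g = 0)
    (hMd : ∀ α (g : G), ip (u' α) (v' α) • g = g)
    (ℓ : ℕ) (hℓ : Nat.card (Key q I I' G) ≤ 2 ^ ℓ) :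
    ∃ D : DPF 3 N G, D.PerfectlySecure ∧ D.KeySizeLE ℓ := by
  classical
  have : Fintype G := Fintype.ofFinite G
  have : Fintype (Key q I I' G) := by unfold Key; infer_instance
  have : Nonempty (Key q I I' G) := ⟨(0, 0, 0)⟩
  have hcard : Fintype.card (Key q I I' G) ≤ Fintype.card (Fin ℓ → Bool) := by
    rw [← Nat.card_eq_fintype_card]
    simpa using hℓ
  obtain ⟨e⟩ := Function.Embedding.nonempty_of_card_le hcard
  let enc : Key q I I' G → List Bool := fun k => List.ofFn (e k)
  have henc : Function.Injective enc := fun a b h => e.injective (List.ofFn_injective h)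
  have hlen : ∀ k, (enc k).length = ℓ := fun k => List.length_ofFn
  let dec : List Bool → Key q I I' G := Function.invFun enc
  have hdec : ∀ k, dec (enc k) = k := Function.leftInverse_invFun henc
  have hsupp : ∀ (α : Fin N) (β : G), ∀ k ∈ ((PMF.uniformOfFintype (Key q I I' G)).map
      (fun r i => enc (keyOf q u v v' α β r i))).support,
      ∃ r, ∀ i, k i = enc (keyOf q u v v' α β r i) := by
    intro α β k hk
    rw [PMF.support_map] at hk
    obtain ⟨r, _, rfl⟩ := hk
    exact ⟨r, fun i => rfl⟩
  refine ⟨{ gen := fun α β => (PMF.uniformOfFintype (Key q I I' G)).map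
              (fun r i => enc (keyOf q u v v' α β r i))
            eval := fun i k x => evalK q u u' i (dec k) x
            correct := ?_ }, ?_, ?_⟩
  · intro α β k hk x
    obtain ⟨r, hr⟩ := hsupp α β k hk
    simp only [hr, hdec]
    exact sum_evalK q u v u' v' hq hB hBd hM hMd α β r x
  · intro i α α' β β'
    have aux : ∀ (α : Fin N) (β : G), ((PMF.uniformOfFintype (Key q I I' G)).map
        (fun r i => enc (keyOf q u v v' α β r i))).map (fun k => k i) =
        (PMF.uniformOfFintype (Key q I I' G)).map enc := by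
      intro α β
      rw [PMF.map_comp]
      have : ((fun k : Fin 3 → List Bool => k i) ∘
          (fun r i => enc (keyOf q u v v' α β r i))) =
          enc ∘ (fun r => keyOf q u v v' α β r i) := rfl
      rw [this, ← PMF.map_comp, map_uniform_bijective _ (keyOf_bijective q u v v' α β i)]
    rw [aux, aux]
  · intro α β k hk i
    obtain ⟨r, hr⟩ := hsupp α β k hk
    rw [hr, hlen]

end Construction

end Pool.Agent.MP_38e169_lc
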