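import Mathlib
import Pool.Agent.MP_38e169_lc.Defs
import Pool.Agent.MP_38e169_lc.Scheme
import Pool.Agent.MP_38e169_lc.NT

namespace Pool.Agent.MP_38e169_lc

open Finset

section count

variable {Ω : Type} [Fintype Ω] [DecidableEq Ω]

theorem sum_subset_card_lt {R : Type*} [CommRing R] (c : ℕ → R) (m : ℕ) (T : Finset Ω) :
    (∑ S : {S : Finset Ω // S.card < m}, if (S : Finset Ω) ⊆ T then c (S : Finset Ω).card else 0) =
      ∑ l ∈ range m, c l * (T.card.choose l : R) := by
  have h1 : (∑ S : {S : Finset Ω // S.card < m},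
      if (S : Finset Ω) ⊆ T then c (S : Finset Ω).card else 0) =
      ∑ S ∈ (univ : Finset (Finset Ω)).filter (fun S => S.card < m),
        if S ⊆ T then c S.card else 0 := by
    rw [← Finset.sum_subtype (p := fun S : Finset Ω => S.card < m)
      ((univ : Finset (Finset Ω)).filter (fun S => S.card < m))
      (by intro x; simp) (fun S => if S ⊆ T then c S.card else 0)]
  rw [h1, ← Finset.sum_filter, Finset.filter_filter]
  have h2 : (univ : Finset (Finset Ω)).filter (fun S => S.card < m ∧ S ⊆ T) =
      (range m).biUnion (fun l => powersetCard l T) := by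
    ext S
    simp only [mem_filter, mem_univ, true_and, mem_biUnion, mem_range, mem_powersetCard]
    constructor
    · rintro ⟨h1, h2⟩
      exact ⟨_, h1, h2, rfl⟩
    · rintro ⟨l, hl, h1, h2⟩
      exact ⟨h2 ▸ hl, h1⟩
  rw [h2, Finset.sum_biUnion]
  · refine Finset.sum_congr rfl fun l _ => ?_
    rw [Finset.sum_congr rfl (g := fun _ => c l)]
    · rw [Finset.sum_const, card_powersetCard, nsmul_eq_mul, mul_comm]
    · intro S hS
      rw [(mem_powersetCard.1 hS).2]
  · intro a _ b _ hab
    simp only [Function.onFun]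
    rw [Finset.disjoint_left]
    intro S hS hS'
    rw [mem_powersetCard] at hS hS'
    exact hab (hS.2.symm.trans hS'.2)

theorem sum_subset_card_eq {R : Type*} [CommRing R] (d : ℕ) (T : Finset Ω) :
    (∑ S : {S : Finset Ω // S.card = d}, if (S : Finset Ω) ⊆ T then (1 : R) else 0) =
      (T.card.choose d : R) := by
  have h1 : (∑ S : {S : Finset Ω // S.card = d},
      if (S : Finset Ω) ⊆ T then (1 : R) else 0) =
      ∑ S ∈ (univ : Finset (Finset Ω)).filter (fun S => S.card = d),
        if S ⊆ T then (1 : R) else 0 := by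
    rw [← Finset.sum_subtype (p := fun S : Finset Ω => S.card = d)
      ((univ : Finset (Finset Ω)).filter (fun S => S.card = d))
      (by intro x; simp) (fun S => if S ⊆ T then (1 : R) else 0)]
  rw [h1, ← Finset.sum_filter, Finset.filter_filter]
  have h2 : (univ : Finset (Finset Ω)).filter (fun S => S.card = d ∧ S ⊆ T) =
      powersetCard d T := by
    ext S
    simp only [mem_filter, mem_univ, true_and, mem_powersetCard]
    tauto
  rw [h2, Finset.sum_const, card_powersetCard, nsmul_eq_mul, mul_one]

theorem card_subtype_card_lt (m : ℕ) :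
    Fintype.card {S : Finset Ω // S.card < m} = ∑ l ∈ range m, (Fintype.card Ω).choose l := by
  have := sum_subset_card_lt (R := ℤ) (fun _ => 1) m (univ : Finset Ω)
  rw [card_univ] at this
  simp only [one_mul, subset_univ, if_true, Finset.sum_const, card_univ, nsmul_eq_mul,
    mul_one] at this
  exact_mod_cast this

theorem card_subtype_card_eq (d : ℕ) :
    Fintype.card {S : Finset Ω // S.card = d} = (Fintype.card Ω).choose d := by
  have := sum_subset_card_eq (R := ℤ) d (univ : Finset Ω)
  rw [card_univ] at this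
  simp only [subset_univ, if_true, Finset.sum_const, card_univ, nsmul_eq_mul,
    mul_one] at this
  exact_mod_cast this

end count

/-- the graph of a function -/
def graph {n m : ℕ} (x : Fin n → Fin m) : Finset (Fin n × Fin m) :=
  univ.image (fun i => (i, x i))

theorem card_graph {n m : ℕ} (x : Fin n → Fin m) : (graph x).card = n := by
  unfold graph
  rw [card_image_of_injective, card_univ, Fintype.card_fin]
  intro a b h
  exact (Prod.ext_iff.1 h).1

theorem graph_injective {n m : ℕ} : Function.Injective (graph : (Fin n → Fin m) → _) := by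
  intro x y h
  funext i
  have h1 : (i, x i) ∈ graph y := by
    rw [← h]
    exact mem_image_of_mem _ (mem_univ i)
  unfold graph at h1
  rw [mem_image] at h1
  obtain ⟨j, _, hj⟩ := h1
  have h2 := (Prod.ext_iff.1 hj).1
  have h3 := (Prod.ext_iff.1 hj).2
  simp only at h2 h3
  rw [← h3, h2]

theorem card_graph_inter_lt {n m : ℕ} {x y : Fin n → Fin m} (h : x ≠ y) :
    (graph x ∩ graph y).card < n := by
  rcases Nat.lt_or_ge (graph x ∩ graph y).card n with h1 | h1
  · exact h1
  · exfalso
    have h2 : graph x ∩ graph y = graph x :=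
      Finset.eq_of_subset_of_card_le inter_subset_left (by rw [card_graph]; exact h1)
    have h3 : graph x ∩ graph y = graph y :=
      Finset.eq_of_subset_of_card_le inter_subset_right (by rw [card_graph]; exact h1)
    exact h (graph_injective (h2.symm.trans h3))

theorem count_aux (q E a a' B : ℕ) (ha : a ≤ B) (ha' : a' ≤ B) :
    q ^ a * ((E ^ q) ^ a' * (E ^ q) ^ a') ≤ 2 ^ ((q + 2 * q * E) * B) := by
  have hq2 : q ≤ 2 ^ q := Nat.lt_two_pow_self.le
  have hE2 : E ≤ 2 ^ E := Nat.lt_two_pow_self.le
  calc q ^ a * ((E ^ q) ^ a' * (E ^ q) ^ a')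
      ≤ (2 ^ q) ^ a * (((2 ^ E) ^ q) ^ a' * ((2 ^ E) ^ q) ^ a') := by
        gcongr
    _ = 2 ^ (q * a + 2 * q * E * a') := by
        rw [← pow_mul, ← pow_mul, ← pow_mul, ← pow_add, ← pow_add]
        congr 1; ring
    _ ≤ 2 ^ ((q + 2 * q * E) * B) := by
        apply Nat.pow_le_pow_right (by norm_num)
        rw [add_mul]
        exact Nat.add_le_add (Nat.mul_le_mul_left _ ha) (Nat.mul_le_mul_left _ ha')

theorem exists_DPF {G : Type*} [AddCommGroup G] [Finite G] (q : ℕ) [Fact q.Prime] (hq : 2 < q)
    (hcop : Nat.Coprime q (Nat.card G)) (m : ℕ) (hm : 2 ≤ m) (N : ℕ)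
    (hN : N ≤ m ^ (m ^ 2 - 1)) :
    ∃ D : DPF 3 N G, D.PerfectlySecure ∧
      D.KeySizeLE ((q + 2 * q * Nat.card G) * (q * m ^ 3) ^ (q * m)) := by
  classical
  have hq1 : 1 < q := by omega
  set f := Nat.clog q m with hf
  set Q := q ^ f with hQdef
  have hQm : m ≤ Q := Nat.le_pow_clog hq1 m
  have hQlt : Q ≤ q * m := by
    have h1 : q ^ f.pred < m := Nat.pow_pred_clog_lt_self hq1 (by omega)
    have h2 : 0 < f := Nat.clog_pos hq1 hm
    have h3 : Q = q ^ f.pred * q := by
      rw [hQdef, ← pow_succ]
      congr 1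
      exact (Nat.succ_pred_eq_of_pos h2).symm
    rw [h3, mul_comm]
    exact Nat.mul_le_mul_left _ h1.le
  have hQ1 : 1 ≤ Q := by omega
  set n := m * Q - 1 with hn
  have hmQ : 1 ≤ m * Q := Nat.one_le_iff_ne_zero.2 (by positivity)
  have hn1 : n + 1 = m * Q := by omega
  -- embedding of the domain
  have hmn : N ≤ m ^ n := by
    refine hN.trans (Nat.pow_le_pow_right (by omega) ?_)
    have : m ^ 2 ≤ m * Q := by rw [pow_two]; exact Nat.mul_le_mul_left _ hQm
    omega
  have hcardf : Fintype.card (Fin N) ≤ Fintype.card (Fin n → Fin m) := by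
    simpa using hmn
  obtain ⟨emb⟩ := Function.Embedding.nonempty_of_card_le hcardf
  set E := Nat.card G with hE
  obtain ⟨c, hc⟩ := exists_interpolation Q E hQ1 (Nat.Coprime.pow_left f hcop) (m - 1)
  have hm1 : m - 1 + 1 = m := by omega
  rw [hm1] at hc
  -- the vectors
  let I := {S : Finset (Fin n × Fin m) // S.card = Q - 1}
  let I' := {S : Finset (Fin n × Fin m) // S.card < m}
  let u : Fin N → I → ZMod q := fun x S => if S.1 ⊆ graph (emb x) then 1 else 0
  let u' : Fin N → I' → ℤ := fun x S => if S.1 ⊆ graph (emb x) then 1 else 0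
  let v' : Fin N → I' → ℤ := fun x S =>
    if S.1 ⊆ graph (emb x) then c S.1.card else 0
  have ipu : ∀ x α, ip (u x) (u α) =
      if Q ∣ (graph (emb x) ∩ graph (emb α)).card + 1 then 1 else 0 := by
    intro x α
    rw [← choose_pow_sub_one q f, ← sum_subset_card_eq]
    unfold ip
    refine Finset.sum_congr rfl fun S _ => ?_
    simp only [u, subset_inter_iff]
    split_ifs <;> simp_all
  have ipu' : ∀ x α, ip (u' x) (v' α) =
      ∑ l ∈ range m, c l * ((graph (emb x) ∩ graph (emb α)).card.choose l : ℤ) := by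
    intro x α
    rw [← sum_subset_card_lt]
    unfold ip
    refine Finset.sum_congr rfl fun S _ => ?_
    simp only [u', v', subset_inter_iff]
    split_ifs <;> simp_all
  have hsmul : ∀ (z : ℤ), (E : ℤ) ∣ z → ∀ g : G, z • g = 0 := by
    rintro z ⟨k, rfl⟩ g
    rw [mul_comm, mul_smul, natCast_zsmul, hE, card_nsmul_eq_zero', smul_zero]
  have hcardself : ∀ α, (graph (emb α) ∩ graph (emb α)).card = m * Q - 1 := by
    intro α
    rw [inter_self, card_graph]
  have : NeZero q := ⟨by omega⟩
  refine exists_scheme q u u u' v' hq ?_ ?_ ?_ ?_ _ ?_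
  · intro x α
    rw [ipu]
    split_ifs
    · right; rfl
    · left; rfl
  · intro α
    rw [ipu, if_pos]
    rw [hcardself, Nat.sub_add_cancel hmQ]
    exact Dvd.intro_left m rfl
  · intro x α hx h1 g
    rw [ipu] at h1
    have hdvd : Q ∣ (graph (emb x) ∩ graph (emb α)).card + 1 := by
      by_contra h
      rw [if_neg h] at h1
      have : Fact (1 < q) := ⟨hq1⟩
      exact zero_ne_one h1
    obtain ⟨i, hi⟩ := hdvd
    have hlt : (graph (emb x) ∩ graph (emb α)).card < n :=
      card_graph_inter_lt (fun h => hx (emb.injective h))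
    have hi1 : 1 ≤ i := by
      rcases Nat.eq_zero_or_pos i with h | h
      · subst h; simp at hi
      · exact h
    have him : i < m := by
      by_contra h
      push Not at h
      have : m * Q ≤ Q * i := by rw [mul_comm m Q]; exact Nat.mul_le_mul_left _ h
      omega
    have hA : (graph (emb x) ∩ graph (emb α)).card = i * Q - 1 := by
      rw [mul_comm i Q, ← hi]; omega
    rw [ipu', hA]
    have := hc i hi1 (by omega)
    rw [if_neg (by omega), sub_zero] at this
    exact hsmul _ this g
  · intro α g
    rw [ipu', hcardself]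
    have := hc m (by omega) le_rfl
    rw [if_pos rfl] at this
    have h2 := hsmul _ this g
    rw [sub_smul, one_smul, sub_eq_zero] at h2
    exact h2
  · -- counting
    have hΩ : Fintype.card (Fin n × Fin m) = n * m := by simp
    set b := q * m ^ 3 with hb
    have hnm : n * m ≤ b := by
      have h1 : n ≤ m * (q * m) := by
        have : m * Q ≤ m * (q * m) := Nat.mul_le_mul_left _ hQlt
        omega
      calc n * m ≤ m * (q * m) * m := Nat.mul_le_mul_right _ h1
        _ = b := by rw [hb]; ring
    have hb2 : 2 ≤ b := by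
      have : 1 ≤ m ^ 3 := Nat.one_le_pow _ _ (by omega)
      calc 2 ≤ q * 1 := by omega
        _ ≤ q * m ^ 3 := Nat.mul_le_mul_left _ this
    have hcI : Fintype.card I ≤ b ^ (q * m) := by
      rw [card_subtype_card_eq, hΩ]
      calc (n * m).choose (Q - 1) ≤ (n * m) ^ (Q - 1) := Nat.choose_le_pow _ _
        _ ≤ b ^ (Q - 1) := Nat.pow_le_pow_left hnm _
        _ ≤ b ^ (q * m) := Nat.pow_le_pow_right (by omega) (by omega)
    have hcI' : Fintype.card I' ≤ b ^ (q * m) := by
      rw [card_subtype_card_lt, hΩ]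
      calc ∑ l ∈ range m, (n * m).choose l ≤ ∑ l ∈ range m, b ^ l := by
            refine Finset.sum_le_sum fun l _ => ?_
            exact (Nat.choose_le_pow _ _).trans (Nat.pow_le_pow_left hnm _)
        _ ≤ b ^ m := (Nat.geomSum_lt hb2 (fun k hk => mem_range.1 hk)).le
        _ ≤ b ^ (q * m) := Nat.pow_le_pow_right (by omega) (Nat.le_mul_of_pos_left m (by omega))
    have hcK : Nat.card (Key q I I' G) =
        q ^ Fintype.card I * ((E ^ q) ^ Fintype.card I' * (E ^ q) ^ Fintype.card I') := by
      have : Fintype G := Fintype.ofFinite G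
      unfold Key
      rw [Nat.card_prod, Nat.card_prod, Nat.card_fun, Nat.card_fun, Nat.card_fun,
        Nat.card_zmod, Nat.card_eq_fintype_card, Nat.card_eq_fintype_card (α := I')]
    rw [hcK]
    exact count_aux q E _ _ _ hcI hcI'

end Pool.Agent.MP_38e169_lc
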